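import Pool.Agent.Lib.MP_d92bf9_co.Contour

open Pool.Agent.Lib.MP_d92bf9_co

/-- There is a continuous graph parameter strictly above bandwidth whose reduced version is
bounded on planar graphs. -/
theorem Pool.Agent.Variants.MP_d92bf9_co.ContinuousParamRot.result :
    ∃ f : Param, IsoInvariant f ∧ ContinuousParam f ∧
      BoundedBy bandwidth f ∧ ¬ BoundedBy f bandwidth ∧
      ∃ c : ℕ, ∀ (V : Type) [Finite V] [Nonempty V] (G : SimpleGraph V),
        Planar G → Reducible f c V ⟨G, ⊥⟩ :=
  ⟨delParam 258, del_isoInv _, del_continuous _, bw_boundedBy_del _, del_not_boundedBy _,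
    0, planar_reducible⟩
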